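import Pool.Agent.helper61.OmlaMain

set_option autoImplicit false

/-!
# The state cost of determinizing once-marking 1-limited automata is exponential

The machine models (`Machine`, `Machine.Accepts`, `Machine.IsOMLA`, `Machine.IsDeterministic`,
`TwoDFA`, `TwoDFA.Accepts`) are defined in `Pool.Agent.helper61.OmlaDefs`.
-/

namespace Pool.Agent.Results.MP_41802b_lc.OmlaExponential

open H61.Omla

/-- Every `n`-state OMLA over the alphabet `A` has an equivalent 2DFA with at most `m` states. -/
def TwoDFABound (A : Type) (n m : ℕ) : Prop :=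
  ∀ M : Machine A, M.IsOMLA → Fintype.card M.State = n →
    ∃ D : TwoDFA A, Fintype.card D.State ≤ m ∧ ∀ w : List A, D.Accepts w ↔ M.Accepts w

/-- Every `n`-state OMLA over the alphabet `A` has an equivalent deterministic OMLA with at most `m`
states. -/
def DomlaBound (A : Type) (n m : ℕ) : Prop :=
  ∀ M : Machine A, M.IsOMLA → Fintype.card M.State = n →
    ∃ N : Machine A, N.IsOMLA ∧ N.IsDeterministic ∧ Fintype.card N.State ≤ m ∧
      ∀ w : List A, N.Accepts w ↔ M.Accepts w

/-- The least `m` such that every `n`-state OMLA over `A` has an equivalent 2DFA with at most `m`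
states. -/
noncomputable def f (A : Type) (n : ℕ) : ℕ := sInf {m | TwoDFABound A n m}

/-- The least `m` such that every `n`-state OMLA over `A` has an equivalent DOMLA with at most `m`
states. -/
noncomputable def g (A : Type) (n : ℕ) : ℕ := sInf {m | DomlaBound A n m}

lemma twoDFABound_exp (A : Type) (n : ℕ) : TwoDFABound A n (2 ^ (19 * n ^ 2)) := by
  rintro M hM rfl
  exact exists_twoDFA M hM

lemma domlaBound_of {A : Type} {n m : ℕ} (h : TwoDFABound A n m) : DomlaBound A n m := by
  intro M hM hn
  obtain ⟨D, h1, h2⟩ := h M hM hn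
  exact ⟨D.toMachine, toMachine_omla D, toMachine_det D, h1,
    fun w => (toMachine_accepts D w).trans (h2 w)⟩

/-- The values `f A n` and `g A n` are attained, and `g A n ≤ f A n ≤ 2 ^ (19 * n ^ 2)`. -/
theorem result (A : Type) (n : ℕ) :
    TwoDFABound A n (f A n) ∧ DomlaBound A n (g A n) ∧
      g A n ≤ f A n ∧ f A n ≤ 2 ^ (19 * n ^ 2) := by
  have h1 : TwoDFABound A n (f A n) :=
    Nat.sInf_mem (s := {m | TwoDFABound A n m}) ⟨_, twoDFABound_exp A n⟩
  have h2 : DomlaBound A n (g A n) :=
    Nat.sInf_mem (s := {m | DomlaBound A n m}) ⟨_, domlaBound_of h1⟩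
  exact ⟨h1, h2, Nat.sInf_le (domlaBound_of h1), Nat.sInf_le (twoDFABound_exp A n)⟩

end Pool.Agent.Results.MP_41802b_lc.OmlaExponential
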